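import Mathlib

/-!
Sums over configurations with independent binary switches.
-/

set_option autoImplicit false

open scoped ENNReal

namespace Pool.Agent.H986.GB

/-- the factor of a switch in the states `1`, `2`, or without a switch -/
noncomputable def ef (s : ℕ) (A B : ℝ≥0∞) : ℝ≥0∞ := if s = 1 then A else if s = 2 then B else 1

theorem one_switch {Ω : Type*} (G : Ω → ℝ≥0∞) (τ : Ω → Ω) (st : Ω → ℕ)
    (hτ : ∀ l, τ (τ l) = l) (h1 : ∀ l, st l = 1 → st (τ l) = 2) (h2 : ∀ l, st l = 2 → st (τ l) = 1)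
    (r : ℝ≥0∞) (hG : ∀ l, st l = 1 → G (τ l) = r * G l) {A B : ℝ≥0∞} (hAB : A + r * B ≤ 1 + r) :
    ∑' l, G l * ef (st l) A B ≤ ∑' l, G l := by
  classical
  have key : ∀ A B : ℝ≥0∞, ∑' l, G l * ef (st l) A B =
      (∑' l, if st l ≠ 1 ∧ st l ≠ 2 then G l else 0) +
        (A + r * B) * ∑' l, if st l = 1 then G l else 0 := by
    intro A B
    have e1 : ∀ l, G l * ef (st l) A B = (if st l ≠ 1 ∧ st l ≠ 2 then G l else 0) +
        (A * (if st l = 1 then G l else 0) + B * (if st l = 2 then G l else 0)) := by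
      intro l
      unfold ef
      by_cases h : st l = 1
      · simp [h, mul_comm]
      · by_cases h' : st l = 2
        · simp [h', mul_comm]
        · simp [h, h']
    have e2 : ∑' l, (if st l = 2 then G l else 0) = r * ∑' l, if st l = 1 then G l else 0 := by
      rw [← ENNReal.tsum_mul_left]
      have hinv : Function.Involutive τ := hτ
      rw [← Equiv.tsum_eq hinv.toPerm]
      refine tsum_congr fun l => ?_
      change (if st (τ l) = 2 then G (τ l) else 0) = _
      by_cases h : st l = 1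
      · rw [if_pos (h1 l h), if_pos h, hG l h]
      · rw [if_neg h, mul_zero, if_neg]
        intro h'
        have := h2 _ h'
        rw [hτ] at this
        exact h this
    rw [tsum_congr e1, ENNReal.tsum_add, ENNReal.tsum_add, ENNReal.tsum_mul_left,
      ENNReal.tsum_mul_left, e2]
    ring
  have e3 : ∑' l, G l = ∑' l, G l * ef (st l) 1 1 := by
    refine tsum_congr fun l => ?_
    unfold ef
    split_ifs <;> simp
  rw [e3, key, key, mul_one]
  gcongr

theorem switches {Ω X : Type*} [DecidableEq X] (S : Finset X) (G : Ω → ℝ≥0∞) (τ : X → Ω → Ω)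
    (st : X → Ω → ℕ) (hτ : ∀ x ∈ S, ∀ l, τ x (τ x l) = l)
    (h1 : ∀ x ∈ S, ∀ l, st x l = 1 → st x (τ x l) = 2)
    (h2 : ∀ x ∈ S, ∀ l, st x l = 2 → st x (τ x l) = 1)
    (ho : ∀ x ∈ S, ∀ y ∈ S, x ≠ y → ∀ l, st y (τ x l) = st y l)
    (r : ℝ≥0∞) (hG : ∀ x ∈ S, ∀ l, st x l = 1 → G (τ x l) = r * G l) (A B : X → ℝ≥0∞)
    (hAB : ∀ x ∈ S, A x + r * B x ≤ 1 + r) :
    ∑' l, G l * ∏ x ∈ S, ef (st x l) (A x) (B x) ≤ ∑' l, G l := by
  suffices h : ∀ T : Finset X, T ⊆ S →
      ∑' l, G l * ∏ x ∈ T, ef (st x l) (A x) (B x) ≤ ∑' l, G l from h S subset_rfl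
  intro T
  induction T using Finset.induction_on with
  | empty =>
    intro _
    simp
  | insert x T hx ih =>
    intro hT
    have hxS : x ∈ S := hT (Finset.mem_insert_self _ _)
    have hTS : T ⊆ S := fun y hy => hT (Finset.mem_insert_of_mem hy)
    refine le_trans (le_of_eq ?_) ((one_switch (fun l => G l * ∏ y ∈ T, ef (st y l) (A y) (B y))
      (τ x) (st x) (hτ x hxS) (h1 x hxS) (h2 x hxS) r ?_ (hAB x hxS)).trans (ih hTS))
    · refine tsum_congr fun l => ?_
      rw [Finset.prod_insert hx]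
      ring
    · intro l hl
      have : ∏ y ∈ T, ef (st y (τ x l)) (A y) (B y) = ∏ y ∈ T, ef (st y l) (A y) (B y) := by
        refine Finset.prod_congr rfl fun y hy => ?_
        rw [ho x hxS y (hTS hy) (fun h => hx (h ▸ hy))]
      rw [this, hG x hxS l hl]
      ring

theorem exp_le_add_exp_sq (x : ℝ) : Real.exp x ≤ x + Real.exp (x ^ 2) := by
  rcases le_or_gt |x| 1 with h | h
  · have h1 := (abs_le.1 (Real.abs_exp_sub_one_sub_id_le h)).2
    have h2 := Real.add_one_le_exp (x ^ 2)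
    linarith
  · rcases lt_abs.1 h with h' | h'
    · have : Real.exp x ≤ Real.exp (x ^ 2) := Real.exp_le_exp.2 (by nlinarith)
      linarith
    · have h1 : Real.exp x ≤ 1 := Real.exp_le_one_iff.2 (by linarith)
      have h2 := Real.add_one_le_exp (x ^ 2)
      nlinarith

/-- a centred variable with two values -/
theorem two_point {r w lam : ℝ} (hr : 0 < r) (hw : |w| ≤ 1) :
    Real.exp (-(lam * (r * w))) + r * Real.exp (lam * w) ≤
      (1 + r) * Real.exp (lam ^ 2 * (1 + r) ^ 2) := by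
  have hw2 : w ^ 2 ≤ 1 := by
    rw [← sq_abs]
    nlinarith [abs_nonneg w]
  have h1 := exp_le_add_exp_sq (-(lam * (r * w)))
  have h2 := exp_le_add_exp_sq (lam * w)
  have hl : 0 ≤ lam ^ 2 := sq_nonneg _
  have h3 : Real.exp ((-(lam * (r * w))) ^ 2) ≤ Real.exp (lam ^ 2 * (1 + r) ^ 2) := by
    apply Real.exp_le_exp.2
    have e : (-(lam * (r * w))) ^ 2 = lam ^ 2 * (r ^ 2 * w ^ 2) := by ring
    rw [e]
    apply mul_le_mul_of_nonneg_left _ hl
    have : r ^ 2 * w ^ 2 ≤ r ^ 2 := by nlinarith [sq_nonneg r]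
    nlinarith
  have h4 : Real.exp ((lam * w) ^ 2) ≤ Real.exp (lam ^ 2 * (1 + r) ^ 2) := by
    apply Real.exp_le_exp.2
    have e : (lam * w) ^ 2 = lam ^ 2 * w ^ 2 := by ring
    rw [e]
    apply mul_le_mul_of_nonneg_left _ hl
    nlinarith
  have h5 := mul_le_mul_of_nonneg_left (h2.trans (add_le_add_right h4 _)) hr.le
  nlinarith [h1.trans (add_le_add_right h3 _)]

end Pool.Agent.H986.GB
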