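import Mathlib

/-!
Exchange of the strands of a list inside a window.
-/

set_option autoImplicit false

namespace Pool.Agent.H986.GB

variable {V : Type*}

/-- The list `l` is `a₀ ++ P₁ ++ a₁ ++ ... ++ P_k ++ a_k`, where `P₁, ..., P_k` are the members of
`P` and the lists `aᵢ` avoid the window `W`. -/
def Shows (W : Set V) : List (List V) → List V → Prop
  | [], l => ∀ v ∈ l, v ∉ W
  | p :: P, l => ∃ a b, l = a ++ (p ++ b) ∧ (∀ v ∈ a, v ∉ W) ∧ Shows W P b

/-- replace each strand of `Q` by the corresponding one of `Q'` -/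
theorem shows_map {W : Set V} {f : V → List V} (hf : ∀ v, v ∉ W → f v = [v]) :
    ∀ (Q Q' : List (List V)), List.Forall₂ (fun q q' => q.flatMap f = q') Q Q' → ∀ l : List V,
      Shows W Q l → Shows W Q' (l.flatMap f) := by
  have hid : ∀ a : List V, (∀ v ∈ a, v ∉ W) → a.flatMap f = a := by
    intro a
    induction a with
    | nil => intro _; rfl
    | cons v a ih =>
      intro h
      rw [List.flatMap_cons, hf v (h v (by simp)), ih fun u hu => h u (by simp [hu])]
      rfl
  intro Q Q' h
  induction h with
  | nil =>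
    intro l hl
    have h1 : ∀ v ∈ l, v ∉ W := hl
    rw [hid l h1]
    exact hl
  | cons hq _ ih =>
    rintro l ⟨a, b, rfl, ha, hb⟩
    refine ⟨a, b.flatMap f, ?_, ha, ih b hb⟩
    rw [List.flatMap_append, List.flatMap_append, hid a ha, hq]

theorem shows_inv {W : Set V} {f g : V → List V} (hf : ∀ v, v ∉ W → f v = [v])
    (hg : ∀ v, v ∉ W → g v = [v]) :
    ∀ (Q Q' : List (List V)),
      List.Forall₂ (fun q q' => q.flatMap f = q' ∧ q'.flatMap g = q) Q Q' → ∀ l : List V,
      Shows W Q l → (l.flatMap f).flatMap g = l := by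
  have hid : ∀ f : V → List V, (∀ v, v ∉ W → f v = [v]) →
      ∀ a : List V, (∀ v ∈ a, v ∉ W) → a.flatMap f = a := by
    intro f hf a
    induction a with
    | nil => intro _; rfl
    | cons v a ih =>
      intro h
      rw [List.flatMap_cons, hf v (h v (by simp)), ih fun u hu => h u (by simp [hu])]
      rfl
  intro Q Q' h
  induction h with
  | nil =>
    intro l hl
    have h1 : ∀ v ∈ l, v ∉ W := hl
    rw [hid f hf l h1, hid g hg l h1]
  | cons hq _ ih =>
    rintro l ⟨a, b, rfl, ha, hb⟩
    rw [List.flatMap_append, List.flatMap_append, List.flatMap_append, List.flatMap_append,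
      hid f hf a ha, hid g hg a ha, hq.1, hq.2, ih b hb]

/-- a change of another window -/
theorem shows_other {W : Set V} {f : V → List V} (hf : ∀ v ∈ W, f v = [v])
    (hf' : ∀ v, v ∉ W → ∀ u ∈ f v, u ∉ W) :
    ∀ (Q : List (List V)), (∀ q ∈ Q, ∀ v ∈ q, v ∈ W) → ∀ l : List V,
      Shows W Q l → Shows W Q (l.flatMap f) := by
  have hout : ∀ a : List V, (∀ v ∈ a, v ∉ W) → ∀ u ∈ a.flatMap f, u ∉ W := by
    intro a ha u hu
    obtain ⟨v, hv, huv⟩ := List.mem_flatMap.1 hu
    exact hf' v (ha v hv) u huv
  intro Q
  induction Q with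
  | nil =>
    intro _ l hl
    exact hout l hl
  | cons q Q ih =>
    rintro hQ l ⟨a, b, rfl, ha, hb⟩
    refine ⟨a.flatMap f, b.flatMap f, ?_, hout a ha, ih (fun q' hq' => hQ q' (by simp [hq'])) b hb⟩
    rw [List.flatMap_append, List.flatMap_append]
    congr 2
    have : ∀ r : List V, (∀ v ∈ r, v ∈ W) → r.flatMap f = r := by
      intro r
      induction r with
      | nil => intro _; rfl
      | cons v r ihr =>
        intro h
        rw [List.flatMap_cons, hf v (h v (by simp)), ihr fun u hu => h u (by simp [hu])]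
        rfl
    exact this q (hQ q (by simp))

/-- the sites outside of the window, and the strands -/
theorem shows_perm {W : Set V} [DecidablePred (· ∈ W)] :
    ∀ (Q : List (List V)), (∀ q ∈ Q, ∀ v ∈ q, v ∈ W) → ∀ l : List V, Shows W Q l →
      l.Perm (l.filter (fun v => v ∉ W) ++ Q.flatten) := by
  intro Q
  induction Q with
  | nil =>
    intro _ l hl
    have h1 : ∀ v ∈ l, v ∉ W := hl
    rw [List.flatten_nil, List.append_nil, List.filter_eq_self.2 (by simpa using h1)]
  | cons q Q ih =>
    rintro hQ l ⟨a, b, rfl, ha, hb⟩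
    have h1 := ih (fun q' hq' => hQ q' (by simp [hq'])) b hb
    have h2 : a.filter (fun v => v ∉ W) = a := List.filter_eq_self.2 (by simpa using ha)
    have h3 : q.filter (fun v => v ∉ W) = [] := by
      rw [List.filter_eq_nil_iff]
      simpa using hQ q (by simp)
    rw [List.filter_append, List.filter_append, h2, h3, List.nil_append, List.flatten_cons,
      List.append_assoc]
    refine List.Perm.append_left a ?_
    have h4 : (b.filter (fun v => v ∉ W) ++ (q ++ Q.flatten)).Perm
        (q ++ (b.filter (fun v => v ∉ W) ++ Q.flatten)) := by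
      rw [← List.append_assoc, ← List.append_assoc]
      exact List.Perm.append_right _ List.perm_append_comm
    exact (List.Perm.append_left q h1).trans h4.symm

theorem shows_append_right {W : Set V} : ∀ (Q : List (List V)) (l r : List V), Shows W Q l →
    (∀ v ∈ r, v ∉ W) → Shows W Q (l ++ r) := by
  intro Q
  induction Q with
  | nil =>
    intro l r hl hr v hv
    rcases List.mem_append.1 hv with h | h
    · exact hl v h
    · exact hr v h
  | cons q Q ih =>
    rintro l r ⟨a, b, rfl, ha, hb⟩ hr
    exact ⟨a, b ++ r, by simp [List.append_assoc], ha, ih b r hb hr⟩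

theorem shows_append_left {W : Set V} (Q : List (List V)) (l r : List V) (hl : Shows W Q l)
    (hr : ∀ v ∈ r, v ∉ W) : Shows W Q (r ++ l) := by
  cases Q with
  | nil =>
    intro v hv
    rcases List.mem_append.1 hv with h | h
    · exact hr v h
    · exact hl v h
  | cons q Q =>
    obtain ⟨a, b, rfl, ha, hb⟩ := hl
    refine ⟨r ++ a, b, by simp [List.append_assoc], ?_, hb⟩
    intro v hv
    rcases List.mem_append.1 hv with h | h
    · exact hr v h
    · exact ha v h

/-- The strands `q` and `q'` can be exchanged. -/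
def Exch (R : V → V → Prop) (q q' : List V) : Prop :=
  q ≠ [] ∧ q.head? = q'.head? ∧ q.getLast? = q'.getLast? ∧ q'.IsChain R

theorem shows_chain {R : V → V → Prop} {W : Set V} {f : V → List V}
    (hf : ∀ v, v ∉ W → f v = [v]) :
    ∀ (Q Q' : List (List V)), List.Forall₂ (fun q q' => q.flatMap f = q' ∧ Exch R q q') Q Q' →
      ∀ l : List V, Shows W Q l → l.IsChain R →
        (l.flatMap f).IsChain R ∧ (l.flatMap f).head? = l.head? := by
  have hid : ∀ a : List V, (∀ v ∈ a, v ∉ W) → a.flatMap f = a := by
    intro a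
    induction a with
    | nil => intro _; rfl
    | cons v a ih =>
      intro h
      rw [List.flatMap_cons, hf v (h v (by simp)), ih fun u hu => h u (by simp [hu])]
      rfl
  intro Q Q' h
  induction h with
  | nil =>
    intro l hl hc
    rw [hid l hl]
    exact ⟨hc, rfl⟩
  | @cons q q' Q Q' hq _ ih =>
    rintro l ⟨a, b, rfl, ha, hb⟩ hc
    obtain ⟨hqf, hne, hh, hl, hc'⟩ := hq
    rw [List.isChain_append, List.isChain_append] at hc
    obtain ⟨c1, ⟨c2, c3, c4⟩, c5⟩ := hc
    obtain ⟨d1, d2⟩ := ih b hb c3
    have hne' : q' ≠ [] := by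
      intro h0
      rw [h0, List.head?_nil, List.head?_eq_none_iff] at hh
      exact hne hh
    have hd : ∀ (x : List V), (q' ++ x).head? = q'.head? := by
      intro x
      obtain ⟨u, q'', rfl⟩ := List.exists_cons_of_ne_nil hne'
      rfl
    have hd' : ∀ (x : List V), (q ++ x).head? = q.head? := by
      intro x
      obtain ⟨u, q'', rfl⟩ := List.exists_cons_of_ne_nil hne
      rfl
    rw [List.flatMap_append, List.flatMap_append, hid a ha, hqf]
    constructor
    · rw [List.isChain_append, List.isChain_append]
      refine ⟨c1, ⟨hc', d1, ?_⟩, ?_⟩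
      · rw [← hl, d2]
        exact c4
      · rw [hd, ← hh, ← hd' b]
        exact c5
    · cases a with
      | nil =>
        rw [List.nil_append, List.nil_append, hd, hd', hh]
      | cons v a => rfl

/-! ### the substitution -/

variable [DecidableEq V]

/-- the strand of `P'` for the first site of a strand of `P`, nothing for the other sites -/
def subst : List (List V) → List (List V) → V → List V
  | p :: P, p' :: P', v => if p.head? = some v then p' else subst P P' v
  | _, _, _ => []

theorem subst_nil_of_notMem : ∀ (P P' : List (List V)) (v : V), v ∉ P.flatten →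
    subst P P' v = []
  | [], [], _, _ => rfl
  | [], _ :: _, _, _ => rfl
  | _ :: _, [], _, _ => rfl
  | p :: P, p' :: P', v, h => by
    rw [List.flatten_cons, List.mem_append, not_or] at h
    rw [subst, if_neg, subst_nil_of_notMem P P' v h.2]
    intro h1
    exact h.1 (List.mem_of_mem_head? h1)

theorem subst_mem : ∀ (P P' : List (List V)) (v u : V), u ∈ subst P P' v → u ∈ P'.flatten
  | [], [], _, _, h => by simp [subst] at h
  | [], _ :: _, _, _, h => by simp [subst] at h
  | _ :: _, [], _, _, h => by simp [subst] at h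
  | p :: P, p' :: P', v, u, h => by
    rw [subst] at h
    rw [List.flatten_cons, List.mem_append]
    split_ifs at h with h1
    · exact Or.inl h
    · exact Or.inr (subst_mem P P' v u h)

omit [DecidableEq V] in
theorem f2_mem {A B : Type*} {R S : A → B → Prop} {l₁ : List A} {l₂ : List B}
    (h : List.Forall₂ R l₁ l₂) :
    (∀ a ∈ l₁, ∀ b ∈ l₂, R a b → S a b) → List.Forall₂ S l₁ l₂ := by
  induction h with
  | nil => intro _; exact List.Forall₂.nil
  | cons h1 _ ih =>
    intro h
    exact List.Forall₂.cons (h _ (by simp) _ (by simp) h1)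
      (ih fun a ha b hb => h a (by simp [ha]) b (by simp [hb]))

omit [DecidableEq V] in
theorem f2_and {A B : Type*} {R S : A → B → Prop} {l₁ : List A} {l₂ : List B}
    (h : List.Forall₂ R l₁ l₂) :
    List.Forall₂ S l₁ l₂ → List.Forall₂ (fun a b => R a b ∧ S a b) l₁ l₂ := by
  induction h with
  | nil => intro _; exact List.Forall₂.nil
  | cons h1 _ ih =>
    intro h
    cases h with
    | cons h2 h3 => exact List.Forall₂.cons ⟨h1, h2⟩ (ih h3)

theorem subst_strand : ∀ (P P' : List (List V)), P.length = P'.length → (∀ p ∈ P, p ≠ []) →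
    P.flatten.Nodup → List.Forall₂ (fun q q' => q.flatMap (subst P P') = q') P P'
  | [], [], _, _, _ => List.Forall₂.nil
  | [], _ :: _, h, _, _ => by simp at h
  | _ :: _, [], h, _, _ => by simp at h
  | p :: P, p' :: P', hlen, hne, hnd => by
    rw [List.flatten_cons, List.nodup_append] at hnd
    obtain ⟨n1, n2, n3⟩ := hnd
    obtain ⟨h, t, rfl⟩ := List.exists_cons_of_ne_nil (hne p (by simp))
    have hht : h ∉ t := (List.nodup_cons.1 n1).1
    have ih := subst_strand P P' (by simpa using hlen) (fun q hq => hne q (by simp [hq])) n2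
    refine List.Forall₂.cons ?_ ?_
    · rw [List.flatMap_cons]
      have e1 : subst ((h :: t) :: P) (p' :: P') h = p' := by
        exact if_pos rfl
      have e2 : t.flatMap (subst ((h :: t) :: P) (p' :: P')) = [] := by
        rw [List.flatMap_eq_nil_iff]
        intro v hv
        rw [subst, if_neg, subst_nil_of_notMem]
        · intro hv'
          exact n3 v (by simp [hv]) v hv' rfl
        · intro h1
          rw [List.head?_cons, Option.some.injEq] at h1
          exact hht (h1 ▸ hv)
      rw [e1, e2, List.append_nil]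
    · refine f2_mem ih fun q hq q' _ hqq' => ?_
      rw [← hqq']
      have : ∀ r : List V, (∀ v ∈ r, v ∈ P.flatten) →
          r.flatMap (subst ((h :: t) :: P) (p' :: P')) = r.flatMap (subst P P') := by
        intro r
        induction r with
        | nil => intro _; rfl
        | cons v r ihr =>
          intro hr
          rw [List.flatMap_cons, List.flatMap_cons, ihr fun u hu => hr u (by simp [hu])]
          congr 1
          rw [subst, if_neg]
          intro h1
          rw [List.head?_cons, Option.some.injEq] at h1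
          exact n3 h (by simp) v (hr v (by simp)) h1
      exact this q fun v hv => List.mem_flatten.2 ⟨q, hq, hv⟩

/-- the change inside the window `W` -/
def phi (W : Set V) [DecidablePred (· ∈ W)] (P P' : List (List V)) (v : V) : List V :=
  if v ∈ W then subst P P' v else [v]

/-- `P` and `P'` are exchangeable patterns in the window `W`. -/
structure Pats (R : V → V → Prop) (W : Set V) (P P' : List (List V)) : Prop where
  ex : List.Forall₂ (fun p p' => p ≠ [] ∧ p' ≠ [] ∧ p.head? = p'.head? ∧
    p.getLast? = p'.getLast? ∧ p.IsChain R ∧ p'.IsChain R) P P'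
  nd : P.flatten.Nodup
  nd' : P'.flatten.Nodup
  sub : ∀ v ∈ P.flatten, v ∈ W
  sub' : ∀ v ∈ P'.flatten, v ∈ W

omit [DecidableEq V] in
theorem Pats.symm {R : V → V → Prop} {W : Set V} {P P' : List (List V)} (h : Pats R W P P') :
    Pats R W P' P where
  ex := (f2_mem (S := fun p p' => (fun p' p => p' ≠ [] ∧ p ≠ [] ∧ p'.head? = p.head? ∧
    p'.getLast? = p.getLast? ∧ p'.IsChain R ∧ p.IsChain R) p' p) h.ex
      fun a _ b _ h => ⟨h.2.1, h.1, h.2.2.1.symm, h.2.2.2.1.symm, h.2.2.2.2.2, h.2.2.2.2.1⟩).flip
  nd := h.nd'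
  nd' := h.nd
  sub := h.sub'
  sub' := h.sub

variable {R : V → V → Prop} {W : Set V} [DecidablePred (· ∈ W)] {P P' : List (List V)}

omit [DecidablePred (· ∈ W)] in
theorem Pats.ne (h : Pats R W P P') : ∀ p ∈ P, p ≠ [] := by
  have := h.ex
  clear h
  induction this with
  | nil => simp
  | cons h1 _ ih =>
    intro p hp
    rcases List.mem_cons.1 hp with rfl | hp
    · exact h1.1
    · exact ih p hp

theorem Pats.strand (h : Pats R W P P') :
    List.Forall₂ (fun q q' => q.flatMap (phi W P P') = q' ∧ Exch R q q') P P' := by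
  have h1 := subst_strand P P' h.ex.length_eq h.ne h.nd
  have h2 : List.Forall₂ (fun q q' => q.flatMap (phi W P P') = q') P P' := by
    refine f2_mem h1 fun q hq q' _ hqq' => ?_
    rw [← hqq']
    have : ∀ r : List V, (∀ v ∈ r, v ∈ P.flatten) →
        r.flatMap (phi W P P') = r.flatMap (subst P P') := by
      intro r
      induction r with
      | nil => intro _; rfl
      | cons v r ihr =>
        intro hr
        rw [List.flatMap_cons, List.flatMap_cons, ihr fun u hu => hr u (by simp [hu])]
        congr 1
        exact if_pos (h.sub v (hr v (by simp)))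
    exact this q fun v hv => List.mem_flatten.2 ⟨q, hq, hv⟩
  exact f2_and h2 (h.ex.imp fun q q' h => ⟨h.1, h.2.2.1, h.2.2.2.1, h.2.2.2.2.2⟩)

omit [DecidableEq V] [DecidablePred (· ∈ W)] in
/-- the list shows the pattern `P` in the window `W`, not at its first `a` and last `b` places -/
def Occ (a b : ℕ) (W : Set V) (P : List (List V)) (l : List V) : Prop :=
  ∃ α β γ, l = α ++ (β ++ γ) ∧ α.length = a ∧ γ.length = b ∧ (∀ v ∈ α, v ∉ W) ∧
    (∀ v ∈ γ, v ∉ W) ∧ Shows W P β

/-- the walks from `o` -/
def IsW (R : V → V → Prop) (o : V) (l : List V) : Prop :=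
  l.head? = some o ∧ l.IsChain R ∧ l.Nodup

omit [DecidableEq V] [DecidablePred (· ∈ W)] in
theorem Occ.shows {a b : ℕ} {Q : List (List V)} {l : List V} (h : Occ a b W Q l) :
    Shows W Q l := by
  obtain ⟨α, β, γ, rfl, -, -, hα, hγ, hβ⟩ := h
  exact shows_append_left _ _ _ (shows_append_right _ _ _ hβ hγ) hα

theorem phi_out {v : V} (h : v ∉ W) : phi W P P' v = [v] := if_neg h

theorem phi_in {v : V} (h : v ∈ W) : phi W P P' v = subst P P' v := if_pos h

theorem flatMap_id {f : V → List V} {W : Set V} (hf : ∀ v, v ∉ W → f v = [v]) :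
    ∀ a : List V, (∀ v ∈ a, v ∉ W) → a.flatMap f = a := by
  intro a
  induction a with
  | nil => intro _; rfl
  | cons v a ih =>
    intro h
    rw [List.flatMap_cons, hf v (h v (by simp)), ih fun u hu => h u (by simp [hu])]
    rfl

theorem occ_split {a b : ℕ} {Q : List (List V)} {l : List V} (h : Occ a b W Q l) :
    ∃ α β γ, l = α ++ (β ++ γ) ∧ α.length = a ∧ γ.length = b ∧ (∀ v ∈ α, v ∉ W) ∧
    (∀ v ∈ γ, v ∉ W) ∧ Shows W Q β ∧ l.flatMap (phi W P P') = α ++ (β.flatMap (phi W P P') ++ γ) := by
  obtain ⟨α, β, γ, rfl, h1, h2, h3, h4, h5⟩ := h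
  refine ⟨α, β, γ, rfl, h1, h2, h3, h4, h5, ?_⟩
  rw [List.flatMap_append, List.flatMap_append, flatMap_id (fun v hv => phi_out hv) α h3,
    flatMap_id (fun v hv => phi_out hv) γ h4]

/-- the exchange -/
theorem occ_map {a b : ℕ} {l : List V} (hP : Pats R W P P') (h : Occ a b W P l) :
    Occ a b W P' (l.flatMap (phi W P P')) := by
  obtain ⟨α, β, γ, -, h1, h2, h3, h4, h5, h6⟩ := occ_split (P := P) (P' := P') h
  exact ⟨α, _, γ, h6, h1, h2, h3, h4, shows_map (fun v hv => phi_out hv) P P'
    (hP.strand.imp fun q q' h => h.1) β h5⟩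

theorem occ_inv {a b : ℕ} {l : List V} (hP : Pats R W P P') (h : Occ a b W P l) :
    (l.flatMap (phi W P P')).flatMap (phi W P' P) = l := by
  refine shows_inv (fun v hv => phi_out hv) (fun v hv => phi_out hv) P P' ?_ l h.shows
  have h1 := hP.strand.imp fun q q' h => h.1
  have h2 : List.Forall₂ (fun q q' => q'.flatMap (phi W P' P) = q) P P' :=
    (hP.symm.strand.imp fun q q' h => h.1).flip
  exact f2_and h1 h2

theorem filter_flatMap (hP : Pats R W P P') (l : List V) :
    (l.flatMap (phi W P P')).filter (fun v => v ∉ W) = l.filter (fun v => v ∉ W) := by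
  induction l with
  | nil => rfl
  | cons v l ih =>
    rw [List.flatMap_cons, List.filter_append, ih]
    by_cases hv : v ∈ W
    · rw [phi_in hv, List.filter_cons_of_neg (by simpa using hv)]
      have : (subst P P' v).filter (fun v => v ∉ W) = [] := by
        rw [List.filter_eq_nil_iff]
        intro u hu
        simpa using hP.sub' u (subst_mem P P' v u hu)
      rw [this, List.nil_append]
    · rw [phi_out hv, List.filter_cons_of_pos (by simpa using hv),
        List.filter_cons_of_pos (by simpa using hv)]
      rfl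

theorem Pats.mem (hP : Pats R W P P') : ∀ q ∈ P, ∀ v ∈ q, v ∈ W := fun q hq v hv =>
  hP.sub v (List.mem_flatten.2 ⟨q, hq, hv⟩)

theorem occ_len {a b : ℕ} {l : List V} (hP : Pats R W P P') (h : Occ a b W P l) :
    (l.flatMap (phi W P P')).length + P.flatten.length = l.length + P'.flatten.length := by
  have h1 := (shows_perm P hP.mem l h.shows).length_eq
  have h2 := (shows_perm P' hP.symm.mem _ (occ_map hP h).shows).length_eq
  rw [filter_flatMap hP] at h2
  rw [List.length_append] at h1 h2
  omega

theorem occ_isW {a b : ℕ} {o : V} {l : List V} (hP : Pats R W P P') (h : Occ a b W P l)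
    (hl : IsW R o l) : IsW R o (l.flatMap (phi W P P')) := by
  obtain ⟨h1, h2, h3⟩ := hl
  obtain ⟨h4, h5⟩ := shows_chain (fun v hv => phi_out hv) P P' hP.strand l h.shows h2
  refine ⟨h5.trans h1, h4, ?_⟩
  rw [(shows_perm P' hP.symm.mem _ (occ_map hP h).shows).nodup_iff, filter_flatMap hP,
    List.nodup_append]
  refine ⟨h3.filter _, hP.nd', ?_⟩
  intro u hu v hv huv
  have := (List.mem_filter.1 hu).2
  rw [huv] at this
  simp [hP.sub' v hv] at this

/-- the exchange in the window `W` does not change what is seen in another window -/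
theorem occ_other {a b : ℕ} {l : List V} (hP : Pats R W P P') (h : Occ a b W P l) {W₂ : Set V}
    (hd : ∀ v ∈ W, v ∉ W₂) {Q : List (List V)} (hQ : ∀ q ∈ Q, ∀ v ∈ q, v ∈ W₂)
    (h' : Occ a b W₂ Q l) : Occ a b W₂ Q (l.flatMap (phi W P P')) := by
  obtain ⟨α, β, γ, e, h1, h2, h3, h4, h5, h6⟩ := occ_split (P := P) (P' := P') h
  obtain ⟨α', β', γ', e', h1', h2', h3', h4', h5'⟩ := h'
  rw [e] at e'
  obtain ⟨rfl, e2⟩ := List.append_inj e' (by rw [h1, h1'])
  obtain ⟨rfl, rfl⟩ := List.append_inj' e2 (by rw [h2, h2'])
  refine ⟨α, _, γ, h6, h1, h2, h3', h4', ?_⟩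
  refine shows_other (f := phi W P P') (fun v hv => phi_out fun hv' => hd v hv' hv) ?_ Q hQ β h5'
  intro v hv u hu
  by_cases hvW : v ∈ W
  · rw [phi_in hvW] at hu
    exact hd u (hP.sub' u (subst_mem P P' v u hu))
  · rw [phi_out hvW] at hu
    rw [List.mem_singleton.1 hu]
    exact hv

/-- the same list cannot show two different patterns -/
theorem shows_filter : ∀ (Q : List (List V)), (∀ q ∈ Q, ∀ v ∈ q, v ∈ W) → ∀ l : List V,
    Shows W Q l → l.filter (fun v => v ∈ W) = Q.flatten := by
  intro Q
  induction Q with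
  | nil =>
    intro _ l hl
    rw [List.flatten_nil, List.filter_eq_nil_iff]
    intro v hv
    simpa using hl v hv
  | cons q Q ih =>
    rintro hQ l ⟨a, b, rfl, ha, hb⟩
    have h2 : a.filter (fun v => v ∈ W) = [] := by
      rw [List.filter_eq_nil_iff]
      simpa using ha
    have h3 : q.filter (fun v => v ∈ W) = q := List.filter_eq_self.2 (by simpa using hQ q (by simp))
    rw [List.filter_append, List.filter_append, h2, h3, ih (fun q' hq' => hQ q' (by simp [hq'])) b hb,
      List.nil_append, List.flatten_cons]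

omit [DecidableEq V] in
theorem eq_of_flatten {P P' : List (List V)}
    (h : List.Forall₂ (fun p p' => p ≠ [] ∧ p' ≠ [] ∧ p.getLast? = p'.getLast?) P P') :
    P.flatten = P'.flatten → P.flatten.Nodup → P = P' := by
  induction h with
  | nil => intro _ _; rfl
  | @cons p p' P P' h1 _ ih =>
    intro he hnd
    obtain ⟨hp, hp', hl⟩ := h1
    rw [List.flatten_cons, List.flatten_cons] at he
    rw [List.flatten_cons] at hnd
    have key : ∀ (x y c : List V), x ≠ [] → x.getLast? = y.getLast? → y = x ++ c → y.Nodup →
        c = [] := by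
      intro x y c hx hxy hy hn
      by_contra hc
      rw [hy, List.getLast?_append_of_ne_nil _ hc] at hxy
      obtain ⟨v, hv⟩ : ∃ v, x.getLast? = some v := by
        rcases hq : x.getLast? with _ | v
        · exact absurd (List.getLast?_eq_none_iff.1 hq) hx
        · exact ⟨v, rfl⟩
      have h2 : v ∈ x := List.mem_of_getLast? hv
      rw [hv] at hxy
      have h3 : v ∈ c := List.mem_of_getLast? hxy.symm
      rw [hy, List.nodup_append] at hn
      exact hn.2.2 v h2 v h3 rfl
    have e : p = p' := by
      rcases List.append_eq_append_iff.1 he with ⟨c, h2, h3⟩ | ⟨c, h2, h3⟩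
      · have hn : p'.Nodup := by
          rw [he, List.nodup_append] at hnd
          exact hnd.1
        have := key p p' c hp hl h2 hn
        rw [h2, this, List.append_nil]
      · have hn : p.Nodup := by
          rw [List.nodup_append] at hnd
          exact hnd.1
        have := key p' p c hp' hl.symm h2 hn
        rw [h2, this, List.append_nil]
    subst e
    rw [ih (List.append_cancel_left he) (List.nodup_append.1 hnd).2.1]

end Pool.Agent.H986.GB
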